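import Pool.Agent.helper60.DA.SpecV

namespace Pool.Agent.helper60.DA

open Polynomial Finset Pool.Agent.helper60.DK

theorem JW : JW_stmt := by
  intro p _ h7
  rw [← S_eq_W (p := p) (by omega)]
  unfold red
  rw [← map_Jop]
  ext n
  rw [coeff_map, coeff_zero]
  obtain ⟨k, hk⟩ := Jop_Sz_dvd (p := p) h7 n
  rw [hk]
  simp

end Pool.Agent.helper60.DA
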